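import Mathlib

open Finset Configuration
open scoped LinearAlgebra.Projectivization

namespace H11.Irr

open Classical in
/-- `w` is a line-irregular labelling by positive integers with all labels at most `s`. -/
def Irreg (P L : Type) [Membership P L] [Fintype P] (w : P → ℕ) (s : ℕ) : Prop :=
  (∀ x, 1 ≤ w x ∧ w x ≤ s) ∧
    Function.Injective fun l : L => ∑ x ∈ univ.filter (fun x : P => x ∈ l), w x

theorem spread (a : ℝ) (N : ℕ) : ∀ A : Finset ℤ, A.card = N →
    ((N : ℝ) - 1) * N * (2 * N - 1) / 24 ≤ ∑ x ∈ A, ((x : ℝ) - a) ^ 2 := by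
  induction N with
  | zero => intro A _; simpa using sum_nonneg fun _ _ => sq_nonneg _
  | succ N ih =>
    intro A hA
    have hne : A.Nonempty := card_pos.1 (by omega)
    have h1 : A.card ≤ (Icc (A.min' hne) (A.max' hne)).card :=
      card_le_card fun x hx => mem_Icc.2 ⟨A.min'_le x hx, A.le_max' x hx⟩
    rw [Int.card_Icc] at h1
    have h2 : ((A.min' hne : ℤ) : ℝ) + N ≤ (A.max' hne : ℤ) := by
      exact_mod_cast (by omega : A.min' hne + N ≤ A.max' hne)
    obtain ⟨x, hx, h3⟩ : ∃ x ∈ A, (N : ℝ) ^ 2 / 4 ≤ ((x : ℝ) - a) ^ 2 := by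
      have h0 : (0 : ℝ) ≤ N := by positivity
      by_cases h : a + N / 2 ≤ (A.max' hne : ℤ)
      · exact ⟨_, A.max'_mem hne, by nlinarith⟩
      · exact ⟨_, A.min'_mem hne, by nlinarith⟩
    have h4 := ih (A.erase x) (by rw [card_erase_of_mem hx]; omega)
    rw [← add_sum_erase A _ hx]
    push_cast
    nlinarith

theorem main (P L : Type) [Membership P L] [Fintype P] [Fintype L] [ProjectivePlane P L]
    (w : P → ℕ) (s : ℕ) (h : Irreg P L w s) : ProjectivePlane.order P L ^ 3 < 3 * s ^ 2 := by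
  classical
  have hN := ProjectivePlane.card_points P L
  have hL := ProjectivePlane.card_lines P L
  have hq := ProjectivePlane.one_lt_order P L
  have hp : ∀ l : L, (univ.filter fun x : P => x ∈ l).card = ProjectivePlane.order P L + 1 := by
    intro l
    rw [← ProjectivePlane.pointCount_eq P l, pointCount, Nat.card_eq_fintype_card, Fintype.card_subtype]
  have hl : ∀ x : P, (univ.filter fun l : L => x ∈ l).card = ProjectivePlane.order P L + 1 := by
    intro x
    rw [← ProjectivePlane.lineCount_eq L x, lineCount, Nat.card_eq_fintype_card, Fintype.card_subtype]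
  generalize ProjectivePlane.order P L = q at *
  have h2 : ∀ x y : P, ((univ.filter fun l : L => x ∈ l ∧ y ∈ l).card : ℝ) =
      1 + if x = y then (q : ℝ) else 0 := by
    intro x y
    split_ifs with e
    · subst e; simp [hl, add_comm]
    · obtain ⟨l, hl, hu⟩ := HasLines.existsUnique_line P L x y e
      rw [card_eq_one.2 ⟨l, by ext m; simpa using ⟨hu m, fun e => e ▸ hl⟩⟩]
      simp
  have hN0 : (0 : ℝ) < Fintype.card P := by rw [hN]; positivity
  set c : ℝ := (∑ x, (w x : ℝ)) / Fintype.card P with hc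
  have hu0 : ∑ x, ((w x : ℝ) - c) = 0 := by
    rw [sum_sub_distrib, sum_const, card_univ, nsmul_eq_mul, hc]; field_simp; ring
  have e1 : ∑ l : L, (∑ x ∈ univ.filter (fun x : P => x ∈ l), ((w x : ℝ) - c)) ^ 2 =
      q * ∑ x, ((w x : ℝ) - c) ^ 2 := by
    have : ∀ l : L, (∑ x ∈ univ.filter (fun x : P => x ∈ l), ((w x : ℝ) - c)) ^ 2 =
        ∑ x : P, ∑ y : P, ((w x : ℝ) - c) * ((w y : ℝ) - c) *
          if x ∈ l ∧ y ∈ l then 1 else 0 := by
      intro l
      rw [sq, sum_filter, sum_mul_sum]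
      refine sum_congr rfl fun x _ => sum_congr rfl fun y _ => ?_
      by_cases h1 : x ∈ l <;> by_cases h2 : y ∈ l <;> simp [h1, h2]
    simp only [this]
    rw [sum_comm, mul_sum]
    refine sum_congr rfl fun x _ => ?_
    rw [sum_comm]
    simp only [← mul_sum, sum_boole, h2]
    simp only [← mul_sum, mul_add, sum_add_distrib, mul_one, hu0, mul_ite, mul_zero,
      sum_ite_eq, mem_univ, if_true]
    ring
  have e2 : ∑ x, ((w x : ℝ) - c) ^ 2 ≤ Fintype.card P * (s ^ 2 / 4) := by
    have : ∑ x, ((w x : ℝ) - c) ^ 2 ≤ ∑ x : P, (s ^ 2 / 4 + (s - 2 * c) * ((w x : ℝ) - c)) := by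
      refine sum_le_sum fun x _ => ?_
      have a1 : (0 : ℝ) ≤ w x := by positivity
      have a2 : (w x : ℝ) ≤ s := by exact_mod_cast (h.1 x).2
      nlinarith [mul_nonneg a1 (sub_nonneg.2 a2), sq_nonneg (c - s / 2)]
    rw [sum_add_distrib, ← mul_sum, hu0] at this
    simpa using this
  have inj : Function.Injective fun l : L =>
      ((∑ x ∈ univ.filter (fun x : P => x ∈ l), w x : ℕ) : ℤ) := by
    intro l m e
    apply h.2
    simp only [Nat.cast_inj] at e
    convert e
  have e3 := spread ((q + 1) * c) _ (univ.image _) (card_image_of_injective _ inj)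
  rw [sum_image fun _ _ _ _ e => inj e, card_univ, hL] at e3
  simp only [sum_sub_distrib, sum_const, hp, nsmul_eq_mul] at e1
  rw [hN] at e2
  push_cast at e1 e2 e3
  rw [e1] at e3
  have hq' : (2 : ℝ) ≤ q := by exact_mod_cast hq
  have e4 := e3.trans (mul_le_mul_of_nonneg_left e2 (by positivity))
  have e5 : (q : ℝ) ^ 3 < 3 * s ^ 2 := by
    by_contra hn
    push Not at hn
    have p1 : (0 : ℝ) < q * (q ^ 2 + q + 1) := by positivity
    have := mul_le_mul_of_nonneg_left hn p1.le
    have p2 : (0 : ℝ) < q * (q ^ 2 + q + 1) * (4 * q ^ 2 + 3 * q + 1) := by positivity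
    nlinarith
  exact_mod_cast e5

end H11.Irr

open H11.Irr

theorem Pool.Agent.Results.MP_aa9284_co.Lower.result :
    (∀ (P L : Type) [Membership P L] [Fintype P] [Fintype L] [ProjectivePlane P L]
      (w : P → ℕ) (s : ℕ), Irreg P L w s → ProjectivePlane.order P L ^ 3 < 3 * s ^ 2) ∧
    ∀ c : ℝ, ∃ (P L : Type) (_ : Membership P L) (_ : Fintype P) (_ : Fintype L)
      (_ : ProjectivePlane P L), ∀ (w : P → ℕ) (s : ℕ), Irreg P L w s →
        c * ProjectivePlane.order P L < s := by
  classical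
  refine ⟨main, fun c => ?_⟩
  obtain ⟨n, hn⟩ := exists_nat_ge (3 * c ^ 2)
  obtain ⟨p, hp, pp⟩ := Nat.exists_infinite_primes n
  haveI := Fact.mk pp
  letI : Fintype (ℙ (ZMod p) (Fin 3 → ZMod p)) := Fintype.ofFinite _
  refine ⟨ℙ (ZMod p) (Fin 3 → ZMod p), ℙ (ZMod p) (Fin 3 → ZMod p), inferInstance, inferInstance,
    inferInstance, inferInstance, fun w s h => ?_⟩
  have h1 := main _ _ w s h
  have h2 := ProjectivePlane.card_points (ℙ (ZMod p) (Fin 3 → ZMod p))
    (ℙ (ZMod p) (Fin 3 → ZMod p))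
  have h3 := Projectivization.card_of_finrank (ZMod p) (Fin 3 → ZMod p) (n := 3) (by simp)
  rw [Nat.card_eq_fintype_card, h2] at h3
  generalize ProjectivePlane.order (ℙ (ZMod p) (Fin 3 → ZMod p)) (ℙ (ZMod p) (Fin 3 → ZMod p)) = q at *
  simp [sum_range_succ] at h3
  have h4 : n ≤ q := by
    by_contra h
    nlinarith
  have h5 : (n : ℝ) ≤ q := by exact_mod_cast h4
  have h6 : (q : ℝ) ^ 3 < 3 * s ^ 2 := by exact_mod_cast h1
  refine lt_of_pow_lt_pow_left₀ 2 (by positivity) ?_
  nlinarith [mul_le_mul_of_nonneg_left (hn.trans h5) (sq_nonneg (q : ℝ))]
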